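import Pool.Agent.Helper5_PermPattern.Compute

/-!
# `MP_923311_co`: the complex `Γ(σ,π)` need not be pure

Counterexample: `σ = 1`, `π = 14325`. The elements `τ` of the open interval with
`μ(1,τ) = 0` are `123`, `321`, `1432` and `3214`; the chain `{123}` is a facet with one vertex
and the chain `{321, 3214}` is a facet with two vertices.
-/

set_option autoImplicit false

namespace Pool.Agent.Results.MP_923311_co.NotPure

open Pool.Agent.Helper5PermPattern Pool.Agent.Helper5PermPattern.FinPerm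

/-- one-line words (values shifted down by one) of all permutations contained in `14325` -/
def W : Fin 12 → List ℕ :=
  ![[], [0], [0, 1], [1, 0], [0, 1, 2], [0, 2, 1], [1, 0, 2], [2, 1, 0],
    [0, 2, 1, 3], [0, 3, 2, 1], [2, 1, 0, 3], [0, 3, 2, 1, 4]]

/-- the corresponding permutations -/
def p : Fin 12 → FinPerm :=
  ![⟨0, 1⟩, ⟨1, 1⟩, ⟨2, 1⟩, ⟨2, Equiv.swap 0 1⟩, ⟨3, 1⟩, ⟨3, Equiv.swap 1 2⟩,
    ⟨3, Equiv.swap 0 1⟩, ⟨3, Equiv.swap 0 2⟩, ⟨4, Equiv.swap 1 2⟩, ⟨4, Equiv.swap 1 3⟩,
    ⟨4, Equiv.swap 0 2⟩, ⟨5, Equiv.swap 1 3⟩]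

theorem word_p : ∀ i, word (p i) = W i := by
  intro i
  fin_cases i <;> decide +kernel

theorem W_inj : Function.Injective W := by decide +kernel

theorem p_inj : Function.Injective p := fun i j h => W_inj (by rw [← word_p, ← word_p, h])

/-- the order table -/
def M (i j : Fin 12) : Bool := leB (W i) (W j)

theorem hM (i j : Fin 12) : M i j = true ↔ p i ≤ p j := by
  rw [le_iff_leB, word_p, word_p]
  rfl

theorem mem_of_le_top {τ : FinPerm} (h : τ ≤ p 11) : ∃ i, τ = p i := by
  have : τ ∈ List.ofFn p := by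
    apply mem_of_le (π := p 11) _ h
    have h1 : ∀ q ∈ (W 11).sublists, ∃ i, sameB (W i) q = true := by decide +kernel
    rw [word_p]
    intro q hq
    obtain ⟨i, hi⟩ := h1 q hq
    exact ⟨p i, List.mem_ofFn.2 ⟨i, rfl⟩, by rw [word_p]; exact hi⟩
  obtain ⟨i, hi⟩ := List.mem_ofFn.1 this
  exact ⟨i, hi.symm⟩

theorem le_top (i : Fin 12) : p i ≤ p 11 := by
  rw [← hM]
  revert i
  decide +kernel

/-- the Möbius values -/
def m : Fin 12 → ℤ := ![0, 1, -1, -1, 0, 1, 1, 0, -1, 0, 0, 0]

theorem mobius_p (j : Fin 12) (hj : M 1 j = true) : mobius (p 1) (p j) = m j := by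
  apply mu_eq_of_table p p_inj 1 (fun x j _ h => mem_of_le_top (h.trans (le_top j))) M hM m rfl
    ?_ j hj
  decide +kernel

/-- vertices of `Γ` -/
theorem vertex_iff (τ : FinPerm) :
    ((p 1 < τ ∧ τ < p 11) ∧ mobius (p 1) τ = 0) ↔ τ = p 4 ∨ τ = p 7 ∨ τ = p 9 ∨ τ = p 10 := by
  constructor
  · rintro ⟨⟨h1, h2⟩, h3⟩
    obtain ⟨i, rfl⟩ := mem_of_le_top h2.le
    have hM1 : M 1 i = true := (hM _ _).2 h1.le
    rw [mobius_p i hM1] at h3
    have hne1 : i ≠ 1 := by rintro rfl; exact lt_irrefl _ h1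
    have hne2 : i ≠ 11 := by rintro rfl; exact lt_irrefl _ h2
    have : ∀ i : Fin 12, M 1 i = true → m i = 0 → i ≠ 1 → i ≠ 11 →
        i = 4 ∨ i = 7 ∨ i = 9 ∨ i = 10 := by decide +kernel
    rcases this i hM1 h3 hne1 hne2 with rfl | rfl | rfl | rfl <;> simp
  · have key : ∀ i : Fin 12, (M 1 i = true ∧ i ≠ 1 ∧ i ≠ 11 ∧ m i = 0) →
        ((p 1 < p i ∧ p i < p 11) ∧ mobius (p 1) (p i) = 0) := by
      rintro i ⟨h1, h2, h3, h4⟩
      refine ⟨⟨lt_of_le_of_ne ((hM _ _).1 h1) (fun h => h2 (p_inj h).symm),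
        lt_of_le_of_ne (le_top i) (fun h => h3 (p_inj h))⟩, ?_⟩
      rw [mobius_p i h1, h4]
    rintro (rfl | rfl | rfl | rfl)
    · exact key 4 (by decide +kernel)
    · exact key 7 (by decide +kernel)
    · exact key 9 (by decide +kernel)
    · exact key 10 (by decide +kernel)

theorem not_comparable {i j : Fin 12} (h : M i j = false ∧ M j i = false) :
    ¬ (p i ≤ p j ∨ p j ≤ p i) := by
  rw [← hM, ← hM, h.1, h.2]
  simp

/-- The complex `Γ(σ,π)`: the subcomplex of the order complex `Δ(σ,π)` of the open interval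
`(σ,π)` of the permutation pattern poset induced by the elements `τ` with `μ(σ,τ) = 0`. -/
def Gamma (σ π : FinPerm) : PreAbstractSimplicialComplex FinPerm :=
  inducedSubcomplex (Delta σ π) {τ | mobius σ τ = 0}

/-- There are permutations `σ ≤ π` such that the complex `Γ(σ,π)` is not pure. -/
theorem result : ∃ σ π : FinPerm, σ ≤ π ∧ ¬ IsPure (Gamma σ π) := by
  refine ⟨p 1, p 11, le_top 1, ?_⟩
  intro hpure
  have face_iff : ∀ s : Finset FinPerm, s ∈ (Gamma (p 1) (p 11)).faces ↔
      s.Nonempty ∧ (∀ τ ∈ s, τ = p 4 ∨ τ = p 7 ∨ τ = p 9 ∨ τ = p 10) ∧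
        ∀ a ∈ s, ∀ b ∈ s, a ≤ b ∨ b ≤ a := by
    intro s
    constructor
    · rintro ⟨⟨h1, h2, h3⟩, h4⟩
      exact ⟨h1, fun τ hτ => (vertex_iff τ).1 ⟨h2 τ hτ, h4 τ hτ⟩, h3⟩
    · rintro ⟨h1, h2, h3⟩
      exact ⟨⟨h1, fun τ hτ => ((vertex_iff τ).2 (h2 τ hτ)).1, h3⟩,
        fun τ hτ => ((vertex_iff τ).2 (h2 τ hτ)).2⟩
  have f1 : IsFacet (Gamma (p 1) (p 11)) {p 4} := by
    constructor
    · rw [face_iff]
      refine ⟨Finset.singleton_nonempty _, ?_, ?_⟩
      · intro τ hτ
        rw [Finset.mem_singleton] at hτ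
        exact Or.inl hτ
      · intro a ha b hb
        rw [Finset.mem_singleton] at ha hb
        rw [ha, hb]
        exact Or.inl le_rfl
    · intro t ht hst
      rw [face_iff] at ht
      obtain ⟨-, h2, h3⟩ := ht
      have h4 : p 4 ∈ t := hst (Finset.mem_singleton_self _)
      apply Finset.eq_singleton_iff_unique_mem.2
      refine ⟨h4, fun x hx => ?_⟩
      rcases h2 x hx with h | h | h | h
      · exact h
      · exact absurd (h ▸ h3 _ h4 x hx) (not_comparable (i := 4) (j := 7) (by decide +kernel))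
      · exact absurd (h ▸ h3 _ h4 x hx) (not_comparable (i := 4) (j := 9) (by decide +kernel))
      · exact absurd (h ▸ h3 _ h4 x hx) (not_comparable (i := 4) (j := 10) (by decide +kernel))
  have f2 : IsFacet (Gamma (p 1) (p 11)) {p 7, p 10} := by
    have h710 : p 7 ≤ p 10 := (hM 7 10).1 (by decide +kernel)
    constructor
    · rw [face_iff]
      refine ⟨⟨p 7, by simp⟩, ?_, ?_⟩
      · intro τ hτ
        rw [Finset.mem_insert, Finset.mem_singleton] at hτ
        rcases hτ with h | h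
        · exact Or.inr (Or.inl h)
        · exact Or.inr (Or.inr (Or.inr h))
      · intro a ha b hb
        rw [Finset.mem_insert, Finset.mem_singleton] at ha hb
        rcases ha with rfl | rfl <;> rcases hb with rfl | rfl
        · exact Or.inl le_rfl
        · exact Or.inl h710
        · exact Or.inr h710
        · exact Or.inl le_rfl
    · intro t ht hst
      rw [face_iff] at ht
      obtain ⟨-, h2, h3⟩ := ht
      have h7 : p 7 ∈ t := hst (by simp)
      have h10 : p 10 ∈ t := hst (by simp)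
      apply Finset.Subset.antisymm _ hst
      intro x hx
      rw [Finset.mem_insert, Finset.mem_singleton]
      rcases h2 x hx with h | h | h | h
      · exact absurd (h ▸ h3 _ h7 x hx) (not_comparable (i := 7) (j := 4) (by decide +kernel))
      · exact Or.inl h
      · exact absurd (h ▸ h3 _ h10 x hx) (not_comparable (i := 10) (j := 9) (by decide +kernel))
      · exact Or.inr h
  have := hpure _ _ f1 f2
  rw [Finset.card_singleton, Finset.card_pair (fun h => by
    have := p_inj h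
    exact absurd this (by decide))] at this
  omega

end Pool.Agent.Results.MP_923311_co.NotPure
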