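import Pool.Agent.Helper5_PermPattern.Compute

/-!
# `MP_923311_co`: the subcomplex of elements with `μ(σ,τ) ≠ 0` need not be pure either

Counterexample: `σ = 213`, `π = 254613`. The elements `τ` of the open interval with
`μ(213,τ) ≠ 0` are `1324`, `2413`, `3241`, `14352`, `24351`; the chain `{2413}` is a facet with
one vertex and the chain `{1324, 14352}` is a facet with two vertices.
-/

set_option autoImplicit false

namespace Pool.Agent.Results.MP_923311_co.NotPureNonzero

open Pool.Agent.Helper5PermPattern Pool.Agent.Helper5PermPattern.FinPerm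

/-- one-line words (values shifted down by one) of all permutations contained in `254613` -/
def W : Fin 25 → List ℕ :=
  ![[], [0], [0, 1], [1, 0], [0, 1, 2], [0, 2, 1], [1, 0, 2], [1, 2, 0], [2, 0, 1], [2, 1, 0], [0, 2, 1, 3], [0, 2, 3, 1], [0, 3, 2, 1], [1, 2, 3, 0], [1, 3, 0, 2], [1, 3, 2, 0], [2, 1, 3, 0], [2, 3, 0, 1], [3, 2, 0, 1], [0, 3, 2, 4, 1], [1, 3, 2, 4, 0], [1, 3, 4, 0, 2], [1, 4, 3, 0, 2], [3, 2, 4, 0, 1], [1, 4, 3, 5, 0, 2]]

/-- a permutation from explicit inverse functions -/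
def mkPerm {n : ℕ} (f g : Fin n → Fin n) (h1 : ∀ i, g (f i) = i) (h2 : ∀ i, f (g i) = i) :
    FinPerm := ⟨n, ⟨f, g, h1, h2⟩⟩

/-- the corresponding permutations -/
def p : Fin 25 → FinPerm :=
  ![mkPerm (n := 0) ![] ![] (by decide) (by decide),
    mkPerm (n := 1) ![0] ![0] (by decide) (by decide),
    mkPerm (n := 2) ![0, 1] ![0, 1] (by decide) (by decide),
    mkPerm (n := 2) ![1, 0] ![1, 0] (by decide) (by decide),
    mkPerm (n := 3) ![0, 1, 2] ![0, 1, 2] (by decide) (by decide),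
    mkPerm (n := 3) ![0, 2, 1] ![0, 2, 1] (by decide) (by decide),
    mkPerm (n := 3) ![1, 0, 2] ![1, 0, 2] (by decide) (by decide),
    mkPerm (n := 3) ![1, 2, 0] ![2, 0, 1] (by decide) (by decide),
    mkPerm (n := 3) ![2, 0, 1] ![1, 2, 0] (by decide) (by decide),
    mkPerm (n := 3) ![2, 1, 0] ![2, 1, 0] (by decide) (by decide),
    mkPerm (n := 4) ![0, 2, 1, 3] ![0, 2, 1, 3] (by decide) (by decide),
    mkPerm (n := 4) ![0, 2, 3, 1] ![0, 3, 1, 2] (by decide) (by decide),
    mkPerm (n := 4) ![0, 3, 2, 1] ![0, 3, 2, 1] (by decide) (by decide),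
    mkPerm (n := 4) ![1, 2, 3, 0] ![3, 0, 1, 2] (by decide) (by decide),
    mkPerm (n := 4) ![1, 3, 0, 2] ![2, 0, 3, 1] (by decide) (by decide),
    mkPerm (n := 4) ![1, 3, 2, 0] ![3, 0, 2, 1] (by decide) (by decide),
    mkPerm (n := 4) ![2, 1, 3, 0] ![3, 1, 0, 2] (by decide) (by decide),
    mkPerm (n := 4) ![2, 3, 0, 1] ![2, 3, 0, 1] (by decide) (by decide),
    mkPerm (n := 4) ![3, 2, 0, 1] ![2, 3, 1, 0] (by decide) (by decide),
    mkPerm (n := 5) ![0, 3, 2, 4, 1] ![0, 4, 2, 1, 3] (by decide) (by decide),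
    mkPerm (n := 5) ![1, 3, 2, 4, 0] ![4, 0, 2, 1, 3] (by decide) (by decide),
    mkPerm (n := 5) ![1, 3, 4, 0, 2] ![3, 0, 4, 1, 2] (by decide) (by decide),
    mkPerm (n := 5) ![1, 4, 3, 0, 2] ![3, 0, 4, 2, 1] (by decide) (by decide),
    mkPerm (n := 5) ![3, 2, 4, 0, 1] ![3, 4, 1, 0, 2] (by decide) (by decide),
    mkPerm (n := 6) ![1, 4, 3, 5, 0, 2] ![4, 0, 5, 2, 1, 3] (by decide) (by decide)]

theorem word_p : ∀ i, word (p i) = W i := by
  intro i
  fin_cases i <;> decide +kernel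

theorem W_inj : Function.Injective W := by decide +kernel

theorem p_inj : Function.Injective p := fun i j h => W_inj (by rw [← word_p, ← word_p, h])

/-- the order table -/
def M (i j : Fin 25) : Bool := leB (W i) (W j)

theorem hM (i j : Fin 25) : M i j = true ↔ p i ≤ p j := by
  rw [le_iff_leB, word_p, word_p]
  rfl

theorem mem_of_le_top {τ : FinPerm} (h : τ ≤ p 24) : ∃ i, τ = p i := by
  have : τ ∈ List.ofFn p := by
    apply mem_of_le (π := p 24) _ h
    have h1 : ∀ q ∈ (W 24).sublists, ∃ i, sameB (W i) q = true := by decide +kernel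
    rw [word_p]
    intro q hq
    obtain ⟨i, hi⟩ := h1 q hq
    exact ⟨p i, List.mem_ofFn.2 ⟨i, rfl⟩, by rw [word_p]; exact hi⟩
  obtain ⟨i, hi⟩ := List.mem_ofFn.1 this
  exact ⟨i, hi.symm⟩

theorem le_top (i : Fin 25) : p i ≤ p 24 := by
  rw [← hM]
  revert i
  decide +kernel

/-- the Möbius values -/
def m : Fin 25 → ℤ := ![0, 0, 0, 0, 0, 0, 1, 0, 0, 0, -1, 0, 0, 0, -1, 0, -1, 0, 0, 1, 1, 0, 0, 0, 0]

theorem mobius_p (j : Fin 25) (hj : M 6 j = true) : mobius (p 6) (p j) = m j := by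
  apply mu_eq_of_table p p_inj 6 (fun x j _ h => mem_of_le_top (h.trans (le_top j))) M hM m rfl
    ?_ j hj
  decide +kernel

/-- vertices of the complex -/
theorem vertex_iff (τ : FinPerm) :
    ((p 6 < τ ∧ τ < p 24) ∧ mobius (p 6) τ ≠ 0) ↔ τ = p 10 ∨ τ = p 14 ∨ τ = p 16 ∨ τ = p 19 ∨ τ = p 20 := by
  constructor
  · rintro ⟨⟨h1, h2⟩, h3⟩
    obtain ⟨i, rfl⟩ := mem_of_le_top h2.le
    have hM1 : M 6 i = true := (hM _ _).2 h1.le
    rw [mobius_p i hM1] at h3
    have hne1 : i ≠ 6 := by rintro rfl; exact lt_irrefl _ h1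
    have hne2 : i ≠ 24 := by rintro rfl; exact lt_irrefl _ h2
    have : ∀ i : Fin 25, M 6 i = true → m i ≠ 0 → i ≠ 6 → i ≠ 24 →
        i = 10 ∨ i = 14 ∨ i = 16 ∨ i = 19 ∨ i = 20 := by decide +kernel
    rcases this i hM1 h3 hne1 hne2 with rfl | rfl | rfl | rfl | rfl <;> simp
  · have key : ∀ i : Fin 25, (M 6 i = true ∧ i ≠ 6 ∧ i ≠ 24 ∧ m i ≠ 0) →
        ((p 6 < p i ∧ p i < p 24) ∧ mobius (p 6) (p i) ≠ 0) := by
      rintro i ⟨h1, h2, h3, h4⟩
      refine ⟨⟨lt_of_le_of_ne ((hM _ _).1 h1) (fun h => h2 (p_inj h).symm),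
        lt_of_le_of_ne (le_top i) (fun h => h3 (p_inj h))⟩, ?_⟩
      rw [mobius_p i h1]
      exact h4
    rintro (rfl | rfl | rfl | rfl | rfl)
    · exact key 10 (by decide +kernel)
    · exact key 14 (by decide +kernel)
    · exact key 16 (by decide +kernel)
    · exact key 19 (by decide +kernel)
    · exact key 20 (by decide +kernel)

theorem not_comparable {i j : Fin 25} (h : M i j = false ∧ M j i = false) :
    ¬ (p i ≤ p j ∨ p j ≤ p i) := by
  rw [← hM, ← hM, h.1, h.2]
  simp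

/-- The subcomplex of the order complex `Δ(σ,π)` of the open interval `(σ,π)` of the permutation
pattern poset induced by the elements `τ` with `μ(σ,τ) ≠ 0`. -/
def GammaNonzero (σ π : FinPerm) : PreAbstractSimplicialComplex FinPerm :=
  inducedSubcomplex (Delta σ π) {τ | mobius σ τ ≠ 0}

/-- There are permutations `σ ≤ π` such that the subcomplex of `Δ(σ,π)` induced by the elements
`τ` with `μ(σ,τ) ≠ 0` is not pure. -/
theorem result : ∃ σ π : FinPerm, σ ≤ π ∧ ¬ IsPure (GammaNonzero σ π) := by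
  refine ⟨p 6, p 24, le_top 6, ?_⟩
  intro hpure
  have face_iff : ∀ s : Finset FinPerm, s ∈ (GammaNonzero (p 6) (p 24)).faces ↔
      s.Nonempty ∧ (∀ τ ∈ s, τ = p 10 ∨ τ = p 14 ∨ τ = p 16 ∨ τ = p 19 ∨ τ = p 20) ∧
        ∀ a ∈ s, ∀ b ∈ s, a ≤ b ∨ b ≤ a := by
    intro s
    constructor
    · rintro ⟨⟨h1, h2, h3⟩, h4⟩
      exact ⟨h1, fun τ hτ => (vertex_iff τ).1 ⟨h2 τ hτ, h4 τ hτ⟩, h3⟩
    · rintro ⟨h1, h2, h3⟩
      exact ⟨⟨h1, fun τ hτ => ((vertex_iff τ).2 (h2 τ hτ)).1, h3⟩,
        fun τ hτ => ((vertex_iff τ).2 (h2 τ hτ)).2⟩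
  have f1 : IsFacet (GammaNonzero (p 6) (p 24)) {p 14} := by
    constructor
    · rw [face_iff]
      refine ⟨Finset.singleton_nonempty _, ?_, ?_⟩
      · intro τ hτ
        rw [Finset.mem_singleton] at hτ
        subst hτ
        simp
      · intro a ha b hb
        rw [Finset.mem_singleton] at ha hb
        rw [ha, hb]
        exact Or.inl le_rfl
    · intro t ht hst
      rw [face_iff] at ht
      obtain ⟨-, h2, h3⟩ := ht
      have h4 : p 14 ∈ t := hst (Finset.mem_singleton_self _)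
      apply Finset.eq_singleton_iff_unique_mem.2
      refine ⟨h4, fun x hx => ?_⟩
      rcases h2 x hx with h | h | h | h | h
      · exact absurd (h ▸ h3 _ h4 x hx) (not_comparable (i := 14) (j := 10) (by decide +kernel))
      · exact h
      · exact absurd (h ▸ h3 _ h4 x hx) (not_comparable (i := 14) (j := 16) (by decide +kernel))
      · exact absurd (h ▸ h3 _ h4 x hx) (not_comparable (i := 14) (j := 19) (by decide +kernel))
      · exact absurd (h ▸ h3 _ h4 x hx) (not_comparable (i := 14) (j := 20) (by decide +kernel))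
  have f2 : IsFacet (GammaNonzero (p 6) (p 24)) {p 10, p 19} := by
    have hbc : p 10 ≤ p 19 := (hM 10 19).1 (by decide +kernel)
    constructor
    · rw [face_iff]
      refine ⟨⟨p 10, by simp⟩, ?_, ?_⟩
      · intro τ hτ
        rw [Finset.mem_insert, Finset.mem_singleton] at hτ
        rcases hτ with rfl | rfl <;> simp
      · intro a ha b hb
        rw [Finset.mem_insert, Finset.mem_singleton] at ha hb
        rcases ha with rfl | rfl <;> rcases hb with rfl | rfl
        · exact Or.inl le_rfl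
        · exact Or.inl hbc
        · exact Or.inr hbc
        · exact Or.inl le_rfl
    · intro t ht hst
      rw [face_iff] at ht
      obtain ⟨-, h2, h3⟩ := ht
      have hb : p 10 ∈ t := hst (by simp)
      have hc : p 19 ∈ t := hst (by simp)
      apply Finset.Subset.antisymm _ hst
      intro x hx
      rw [Finset.mem_insert, Finset.mem_singleton]
      rcases h2 x hx with h | h | h | h | h
      · exact Or.inl h
      · exact absurd (h ▸ h3 _ hb x hx) (not_comparable (i := 10) (j := 14) (by decide +kernel))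
      · exact absurd (h ▸ h3 _ hb x hx) (not_comparable (i := 10) (j := 16) (by decide +kernel))
      · exact Or.inr h
      · exact absurd (h ▸ h3 _ hc x hx) (not_comparable (i := 19) (j := 20) (by decide +kernel))
  have := hpure _ _ f1 f2
  rw [Finset.card_singleton, Finset.card_pair (fun h => by
    have := p_inj h
    exact absurd this (by decide))] at this
  omega

end Pool.Agent.Results.MP_923311_co.NotPureNonzero
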